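import Mathlib
import Pool.Agent.Lib.MP_29a676_an.CFour.Perm

/-!
# Spectral variation of normal matrices: dimension four, and few distinct eigenvalues

Let `A`, `B` be normal complex `n × n` matrices with eigenvalues `α`, `β` (listed with
multiplicity). If `n ≤ 4`, or `A` has at most three distinct eigenvalues, or `B` has at most three
distinct eigenvalues, then some permutation `σ` satisfies `|α k - β (σ k)| ≤ 1.0917 ‖A - B‖` for
every `k`, where `‖·‖` is the operator norm. In particular `c₄ ≤ 1.0917`.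
-/

namespace Pool.Agent.Results.MP_29a676_an.CFour

open Polynomial
open scoped Matrix.Norms.L2Operator

theorem result (n : ℕ) (A B : Matrix (Fin n) (Fin n) ℂ) (hA : IsStarNormal A)
    (hB : IsStarNormal B) (α β : Fin n → ℂ) (hα : A.charpoly = ∏ i, (X - C (α i)))
    (hβ : B.charpoly = ∏ i, (X - C (β i)))
    (h : n ≤ 4 ∨ (Finset.univ.image α).card ≤ 3 ∨ (Finset.univ.image β).card ≤ 3) :
    ∃ σ : Equiv.Perm (Fin n), ∀ k, ‖α k - β (σ k)‖ ≤ 10917 / 10000 * ‖A - B‖ := by
  obtain ⟨a, ha⟩ := SpecVar.exists_eigenbasis_matrix hA hα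
  obtain ⟨b, hb⟩ := SpecVar.exists_eigenbasis_matrix hB hβ
  have hA' := SpecVar.isStarNormal_toEuclideanCLM hA
  have hB' := SpecVar.isStarNormal_toEuclideanCLM hB
  have h := SpecVar.CFour.exists_perm a b (Matrix.toEuclideanCLM (𝕜 := ℂ) A)
    (Matrix.toEuclideanCLM (𝕜 := ℂ) B) α β ha hb
    (fun i => SpecVar.adjoint_apply_of_eigen hA' (ha i))
    (fun k => SpecVar.adjoint_apply_of_eigen hB' (hb k)) h
  rwa [← map_sub, Matrix.l2_opNorm_toEuclideanCLM] at h

end Pool.Agent.Results.MP_29a676_an.CFour
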