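import Pool.Agent.Lib.MP_29a676_an.CThree.Few
import Pool.Agent.Lib.MP_29a676_an.CThree.Example

/-!
# Spectral variation of normal matrices: `c₃ = √(28/27)`, and at most three distinct eigenvalues

The smallest constant `c` such that `sd (A, B) ≤ c ‖A - B‖` for all normal `3 × 3` matrices is
`√(28/27)`, and it is attained. The same bound holds for normal `n × n` matrices `A`, `B`, for every
`n`, if each of them has at most three distinct eigenvalues.
-/

set_option autoImplicit false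

namespace Pool.Agent.Results.MP_29a676_an.CThree

open Matrix Polynomial
open scoped Matrix.Norms.L2Operator

/-- For every `n`, normal `n × n` matrices `A`, `B` with at most three distinct eigenvalues each
satisfy `sd (A, B) ≤ √(28/27) ‖A - B‖`; and `c₃ = √(28/27)`: it is the least constant for `n = 3`, and
it is attained by a pair `A ≠ B`. -/
theorem result :
    (∀ (n : ℕ) (A B : Matrix (Fin n) (Fin n) ℂ) (α β : Fin n → ℂ),
      IsStarNormal A → IsStarNormal B → A.charpoly = ∏ i, (X - C (α i)) →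
      B.charpoly = ∏ i, (X - C (β i)) → (Finset.univ.image α).card ≤ 3 →
      (Finset.univ.image β).card ≤ 3 →
      ∃ σ : Equiv.Perm (Fin n), ∀ k, ‖α k - β (σ k)‖ ≤ Real.sqrt (28 / 27) * ‖A - B‖) ∧
    IsLeast {c : ℝ | ∀ (A B : Matrix (Fin 3) (Fin 3) ℂ) (α β : Fin 3 → ℂ),
      IsStarNormal A → IsStarNormal B → A.charpoly = ∏ i, (X - C (α i)) →
      B.charpoly = ∏ i, (X - C (β i)) →
      ∃ σ : Equiv.Perm (Fin 3), ∀ k, ‖α k - β (σ k)‖ ≤ c * ‖A - B‖} (Real.sqrt (28 / 27)) ∧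
    ∃ (A B : Matrix (Fin 3) (Fin 3) ℂ) (α β : Fin 3 → ℂ), IsStarNormal A ∧ IsStarNormal B ∧
      A.charpoly = ∏ i, (X - C (α i)) ∧ B.charpoly = ∏ i, (X - C (β i)) ∧ A ≠ B ∧
      ∀ σ : Equiv.Perm (Fin 3), ∃ k, Real.sqrt (28 / 27) * ‖A - B‖ ≤ ‖α k - β (σ k)‖ := by
  refine ⟨?_, ?_⟩
  · intro n A B α β hA hB hα hβ h3 h3'
    obtain ⟨a, ha⟩ := SpecVar.exists_eigenbasis_matrix hA hα
    obtain ⟨b, hb⟩ := SpecVar.exists_eigenbasis_matrix hB hβ
    have hA' := SpecVar.isStarNormal_toEuclideanCLM hA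
    have hB' := SpecVar.isStarNormal_toEuclideanCLM hB
    have h := SpecVar.CThree.Few.exists_perm a b (Matrix.toEuclideanCLM (𝕜 := ℂ) A)
      (Matrix.toEuclideanCLM (𝕜 := ℂ) B) α β ha hb
      (fun i => SpecVar.adjoint_apply_of_eigen hA' (ha i))
      (fun k => SpecVar.adjoint_apply_of_eigen hB' (hb k)) h3 h3'
    rwa [← map_sub, Matrix.l2_opNorm_toEuclideanCLM] at h
  have up : ∀ (A B : Matrix (Fin 3) (Fin 3) ℂ) (α β : Fin 3 → ℂ),
      IsStarNormal A → IsStarNormal B → A.charpoly = ∏ i, (X - C (α i)) →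
      B.charpoly = ∏ i, (X - C (β i)) →
      ∃ σ : Equiv.Perm (Fin 3), ∀ k, ‖α k - β (σ k)‖ ≤ Real.sqrt (28 / 27) * ‖A - B‖ := by
    intro A B α β hA hB hα hβ
    obtain ⟨a, ha⟩ := SpecVar.exists_eigenbasis_matrix hA hα
    obtain ⟨b, hb⟩ := SpecVar.exists_eigenbasis_matrix hB hβ
    have hA' := SpecVar.isStarNormal_toEuclideanCLM hA
    have hB' := SpecVar.isStarNormal_toEuclideanCLM hB
    have h := SpecVar.CThree.exists_perm_three a b (Matrix.toEuclideanCLM (𝕜 := ℂ) A)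
      (Matrix.toEuclideanCLM (𝕜 := ℂ) B) α β ha hb
      (fun i => SpecVar.adjoint_apply_of_eigen hA' (ha i))
      (fun k => SpecVar.adjoint_apply_of_eigen hB' (hb k))
    rwa [← map_sub, Matrix.l2_opNorm_toEuclideanCLM] at h
  have hex : Real.sqrt (28 / 27) * ‖SpecVar.CThree.Ex.A - SpecVar.CThree.Ex.B‖ ≤ 1 := by
    calc Real.sqrt (28 / 27) * ‖SpecVar.CThree.Ex.A - SpecVar.CThree.Ex.B‖ ≤
        Real.sqrt (28 / 27) * Real.sqrt (27 / 28) := by
          gcongr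
          exact SpecVar.CThree.Ex.norm_le
      _ = 1 := by
          rw [← Real.sqrt_mul (by norm_num)]
          norm_num
  have hne : 0 < ‖SpecVar.CThree.Ex.A - SpecVar.CThree.Ex.B‖ := by
    obtain ⟨σ, hσ⟩ := up _ _ _ _ SpecVar.CThree.Ex.A_normal SpecVar.CThree.Ex.B_normal
      SpecVar.CThree.Ex.A_charpoly SpecVar.CThree.Ex.B_charpoly
    obtain ⟨k, hk⟩ := SpecVar.CThree.Ex.exists_far σ
    have h1 := hk.trans (hσ k)
    exact pos_of_mul_pos_right (lt_of_lt_of_le one_pos h1) (Real.sqrt_nonneg _)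
  refine ⟨⟨up, ?_⟩, SpecVar.CThree.Ex.A, SpecVar.CThree.Ex.B, SpecVar.CThree.Ex.al,
    SpecVar.CThree.Ex.be, SpecVar.CThree.Ex.A_normal, SpecVar.CThree.Ex.B_normal,
    SpecVar.CThree.Ex.A_charpoly, SpecVar.CThree.Ex.B_charpoly,
    sub_ne_zero.mp (norm_pos_iff.mp hne), ?_⟩
  · intro c hc
    obtain ⟨σ, hσ⟩ := hc _ _ _ _ SpecVar.CThree.Ex.A_normal SpecVar.CThree.Ex.B_normal
      SpecVar.CThree.Ex.A_charpoly SpecVar.CThree.Ex.B_charpoly
    obtain ⟨k, hk⟩ := SpecVar.CThree.Ex.exists_far σ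
    have h1 := hσ k
    have h2 : Real.sqrt (28 / 27) * ‖SpecVar.CThree.Ex.A - SpecVar.CThree.Ex.B‖ ≤
        c * ‖SpecVar.CThree.Ex.A - SpecVar.CThree.Ex.B‖ := by linarith
    exact le_of_mul_le_mul_right h2 hne
  · intro σ
    obtain ⟨k, hk⟩ := SpecVar.CThree.Ex.exists_far σ
    exact ⟨k, hex.trans hk⟩

end Pool.Agent.Results.MP_29a676_an.CThree
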