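import Pool.Agent.Lib.MP_29a676_an.Cert.Pad
import Pool.Agent.Lib.MP_29a676_an.Cert.C5
import Pool.Agent.Lib.MP_29a676_an.Cert.C7
import Pool.Agent.Lib.MP_29a676_an.Cert.C9
import Pool.Agent.Lib.MP_29a676_an.Cert.C11
import Pool.Agent.Lib.MP_29a676_an.Cert.C15

/-!
# Spectral variation of normal matrices: lower bounds

For `n ≥ 5, 7, 9, 11, 15` there are normal `n × n` matrices `A ≠ B` whose eigenvalues cannot be matched
within `1.0265, 1.0305, 1.0327, 1.034, 1.035` times the operator norm of `A - B`.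
-/

set_option autoImplicit false

namespace Pool.Agent.Results.MP_29a676_an.LowerBounds

open Matrix Polynomial
open scoped Matrix.Norms.L2Operator
open Pool.Agent.Lib.MP_29a676_an.Cert

/-- `c_N ≥ 1.0265, 1.0305, 1.0327, 1.034, 1.035` for `N ≥ 5, 7, 9, 11, 15`, respectively -/
theorem result :
    ∀ p ∈ ([(5, 1.0265), (7, 1.0305), (9, 1.0327), (11, 1.034), (15, 1.035)] : List (ℕ × ℝ)),
    ∀ n : ℕ, p.1 ≤ n →
      ∃ (A B : Matrix (Fin n) (Fin n) ℂ) (α β : Fin n → ℂ), IsStarNormal A ∧ IsStarNormal B ∧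
        A.charpoly = ∏ i, (X - C (α i)) ∧ B.charpoly = ∏ i, (X - C (β i)) ∧ A ≠ B ∧
        ∀ σ : Equiv.Perm (Fin n), ∃ k, p.2 * ‖A - B‖ ≤ ‖α k - β (σ k)‖ := by
  have h5 : HasRatio 5 ((2053 : ℤ) / (2000 : ℤ)) := c5.main c5_check (by decide +kernel)
  have h7 : HasRatio 7 ((2061 : ℤ) / (2000 : ℤ)) := c7.main c7_check (by decide +kernel)
  have h9 : HasRatio 9 ((10327 : ℤ) / (10000 : ℤ)) := c9.main c9_check (by decide +kernel)
  have h11 : HasRatio 11 ((517 : ℤ) / (500 : ℤ)) := c11.main c11_check (by decide +kernel)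
  have h15 : HasRatio 15 ((207 : ℤ) / (200 : ℤ)) := c15.main c15_check (by decide +kernel)
  intro p hp n hn
  change HasRatio n p.2
  simp only [List.mem_cons, List.not_mem_nil, or_false] at hp
  rcases hp with rfl | rfl | rfl | rfl | rfl
  · have e : ((2053 : ℤ) / (2000 : ℤ) : ℝ) = 1.0265 := by norm_num
    rw [e] at h5
    exact h5.of_le (by norm_num) hn
  · have e : ((2061 : ℤ) / (2000 : ℤ) : ℝ) = 1.0305 := by norm_num
    rw [e] at h7
    exact h7.of_le (by norm_num) hn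
  · have e : ((10327 : ℤ) / (10000 : ℤ) : ℝ) = 1.0327 := by norm_num
    rw [e] at h9
    exact h9.of_le (by norm_num) hn
  · have e : ((517 : ℤ) / (500 : ℤ) : ℝ) = 1.034 := by norm_num
    rw [e] at h11
    exact h11.of_le (by norm_num) hn
  · have e : ((207 : ℤ) / (200 : ℤ) : ℝ) = 1.035 := by norm_num
    rw [e] at h15
    exact h15.of_le (by norm_num) hn

end Pool.Agent.Results.MP_29a676_an.LowerBounds
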