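import Mathlib
import Pool.Agent.Lib.MP_29a676_an.D.Fin

/-!
# Spectral variation of normal matrices: the constant is at most `1.55`

For normal complex `n × n` matrices `A`, `B` with eigenvalues `α`, `β` (listed with multiplicity)
there is a permutation `σ` with `|α k - β (σ k)| ≤ (31 / 20) ‖A - B‖` for every `k`, where `‖·‖` is
the operator norm. So `c_n ≤ 31 / 20` for every `n`, and `c_∞ ≤ 31 / 20 < π / 2`.
-/

namespace Pool.Agent.Results.MP_29a676_an.UpperBound155

open Polynomial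
open scoped Matrix.Norms.L2Operator

/-- `sd (A, B) ≤ (31 / 20) ‖A - B‖` for all normal `n × n` matrices `A`, `B`. -/
theorem result (n : ℕ) (A B : Matrix (Fin n) (Fin n) ℂ) (hA : IsStarNormal A)
    (hB : IsStarNormal B) (α β : Fin n → ℂ) (hα : A.charpoly = ∏ i, (X - C (α i)))
    (hβ : B.charpoly = ∏ i, (X - C (β i))) :
    ∃ σ : Equiv.Perm (Fin n), ∀ k, ‖α k - β (σ k)‖ ≤ 31 / 20 * ‖A - B‖ := by
  obtain ⟨a, ha⟩ := SpecVar.exists_eigenbasis_matrix hA hα
  obtain ⟨b, hb⟩ := SpecVar.exists_eigenbasis_matrix hB hβ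
  have hA' := SpecVar.isStarNormal_toEuclideanCLM hA
  have hB' := SpecVar.isStarNormal_toEuclideanCLM hB
  have h := SpecVar.D.exists_perm_of_bases a b (Matrix.toEuclideanCLM (𝕜 := ℂ) A)
    (Matrix.toEuclideanCLM (𝕜 := ℂ) B) α β ha hb
    (fun i => SpecVar.adjoint_apply_of_eigen hA' (ha i))
    (fun k => SpecVar.adjoint_apply_of_eigen hB' (hb k))
  rwa [← map_sub, Matrix.l2_opNorm_toEuclideanCLM] at h

end Pool.Agent.Results.MP_29a676_an.UpperBound155
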